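import Pool.Agent.Lib_helper96.CUB.Ex

/-!
The example `X^3 + X^2 + 11 X + 83`, with natural numbers.
-/

namespace Pool.Agent.Lib_helper96.CUB

open Pool.Agent.Lib_helper11.CUB

theorem example_small : ∃ K : ℕ, ∀ h : ℕ → ℤ, CM h → (h 2 = -1 ∨ h 3 = -1) → ∀ x : ℕ, 1 ≤ x →
    ∀ s : ℤ, (s = 1 ∨ s = -1) → ∃ n : ℕ, x ≤ n ∧ n ≤ K * x ^ 6 ∧
      h ((n : ℤ) ^ 3 + n ^ 2 + 11 * n + 83).natAbs = s := by
  obtain ⟨K, hK⟩ := example_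
  refine ⟨K, fun h hh hc x hx s hs => ?_⟩
  obtain ⟨⟨n1, a1, a2, a3⟩, ⟨n2, b1, b2, b3⟩⟩ := hK h hh hc x hx
  have conv : ∀ n : ℤ, (x : ℤ) ≤ n → n ≤ K * (x : ℤ) ^ 6 →
      h (n ^ 3 + n ^ 2 + 11 * n + 83).natAbs = s → ∃ n : ℕ, x ≤ n ∧ n ≤ K * x ^ 6 ∧
      h ((n : ℤ) ^ 3 + n ^ 2 + 11 * n + 83).natAbs = s := by
    intro n h1 h2 h3
    obtain ⟨m, rfl⟩ := Int.eq_ofNat_of_zero_le (show 0 ≤ n by omega)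
    exact ⟨m, by exact_mod_cast h1, by exact_mod_cast h2, h3⟩
  rcases hs with rfl | rfl
  · exact conv n1 a1 a2 a3
  · exact conv n2 b1 b2 b3

end Pool.Agent.Lib_helper96.CUB
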