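import Pool.Agent.Lib_helper96.CUB.Pts

/-!
If `h` is constant along `F_{b,v}` on a long interval of integers then the value `h(q)` is determined by
`b`, `v` and the constant, for every `q` which is not a square.
-/

namespace Pool.Agent.Lib_helper96.CUB

open Pool.Agent.Lib_helper11.CUB Pool.Agent.Lib_helper3.CYC

/-- The argument of `g_b` in the reflection identity. -/
def tau (b n : ℚ) : ℚ := ((2 * n - b - 6) ^ 2 - (b ^ 2 - 12 * b + 48)) / (4 * (b - 8))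

/-- The reflection identity. -/
theorem id3 {b : ℚ} (hb : b ≠ 8) (n : ℚ) :
    (b - 8) ^ 3 * g b (tau b n) = -(F b 1 n * F b 1 (b + 6 - n)) := by
  have h8 : b - 8 ≠ 0 := sub_ne_zero.2 hb
  obtain ⟨r, hr⟩ : ∃ r : ℚ, r = tau b n := ⟨_, rfl⟩
  have h1 : 4 * (b - 8) * r = (2 * n - b - 6) ^ 2 - (b ^ 2 - 12 * b + 48) := by
    rw [hr]; unfold tau; field_simp
  rw [← hr]
  have h2 : n ^ 2 = (b - 8) * r + (b + 6) * n - (6 * b - 3) := by
    linear_combination (-1 / 4) * h1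
  unfold g F
  have h3 : (b - 8) * r = n ^ 2 - (b + 6) * n + (6 * b - 3) := by linear_combination -h2
  have h4 : (b - 8) ^ 3 * ((r - 1) ^ 3 - b * (r - 2)) =
      ((b - 8) * r - (b - 8)) ^ 3 - b * (b - 8) ^ 2 * ((b - 8) * r - 2 * (b - 8)) := by ring
  rw [h4, h3]
  ring

/-- Integrality of the arguments of step (A). -/
def IA (b v z : ℚ) : Prop := v * z ^ 2 ∈ ZZ ∧ v * (z ^ 2 + 4) ∈ ZZ ∧ v * z ^ 2 + v / 2 * g b z ∈ ZZ

/-- Step (A) with both signs. -/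
theorem stepA' {h : ℕ → ℤ} (hh : CM h) {b v : ℚ} (hv : 0 < v) (hb : NR b) {ε : ℤ} {x X : ℚ}
    (hf : ∀ n : ℤ, x ≤ n → (n : ℚ) ≤ X → H h (F b v n) = ε) {z : ℚ} (hz : 2 + |b| ≤ |z|)
    (hi : IA b v |z|) (hx : x ≤ v * |z| ^ 2) (hX : 2 * v * |z| ^ 3 ≤ X) :
    H h (g b z) = if 0 < z then h 2 else ε * H h v * h 2 := by
  have h1 := stepA hh hv hb hf hz hi.1 hi.2.1 hi.2.2 hx hX
  have hb0 := abs_nonneg b
  rcases le_or_gt z 0 with h0 | h0
  · rw [abs_of_nonpos h0, neg_neg] at h1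
    rw [if_neg (not_lt.2 h0)]
    exact h1.2
  · rw [abs_of_pos h0] at h1
    rw [if_pos h0]
    exact h1.1

theorem core {h : ℕ → ℤ} (hh : CM h) {b v : ℚ} (hv : 0 < v) (hb : NR b) {ε : ℤ} {x X : ℚ}
    (hf : ∀ n : ℤ, x ≤ n → (n : ℚ) ≤ X → H h (F b v n) = ε) {q : ℕ} (hq : 0 < q)
    {s1 s2 m1 m2 : ℚ} (hid : F b 1 s1 * F b 1 s2 = q ^ 3 * (g b m1 * g b m2))
    (hsum : s1 + s2 = 6 + b - q)
    (i1 : v * s1 ∈ ZZ) (x1 : x ≤ v * s1) (i1' : v * (s1 + q) ∈ ZZ) (X1 : v * (s1 + q) ≤ X)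
    (hm1 : 2 + |b| ≤ m1) (im1 : IA b v m1) (xm1 : x ≤ v * m1 ^ 2) (Xm1 : 2 * v * m1 ^ 3 ≤ X)
    (hm2 : 2 + |b| ≤ -m2) (im2 : IA b v (-m2)) (xm2 : x ≤ v * (-m2) ^ 2)
    (Xm2 : 2 * v * (-m2) ^ 3 ≤ X)
    (ht : 2 + |b| ≤ |tau b s2|) (it : IA b v |tau b s2|) (xt : x ≤ v * |tau b s2| ^ 2)
    (Xt : 2 * v * |tau b s2| ^ 3 ≤ X) (hsgn : 0 < tau b s2 ↔ 8 < b) :
    h q = h 2 * H h (b - 8) * (if 8 < b then ε * H h v else 1) := by
  have hb0 := abs_nonneg b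
  have hq0 : (q : ℚ) ≠ 0 := by positivity
  have hq1 : (0 : ℚ) < q := by positivity
  have hvne := hv.ne'
  have h8 := hb.ne8
  have h8' : b - 8 ≠ 0 := sub_ne_zero.2 h8
  have sv := H_sq hh hvne
  have s2' := hh.sq (show 1 ≤ 2 by norm_num)
  -- values on the positive side
  have hpos : ∀ s : ℚ, v * s ∈ ZZ → x ≤ v * s → v * s ≤ X → H h (F b 1 s) = ε * H h v := by
    intro s is xs Xs
    obtain ⟨m, hm⟩ := mem_ZZ.1 is
    have h1 := hf m (by rw [hm]; exact xs) (by rw [hm]; exact Xs)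
    rw [hm, id_scale, H_mul hh (pow_ne_zero _ hvne) (hb.F_ne _), H_pow3 hh hvne] at h1
    linear_combination (H h v) * h1 - (H h (F b 1 s)) * sv
  have F1 := hpos s1 i1 x1 (by nlinarith)
  have F1' := hpos (s1 + q) i1' (by nlinarith) X1
  have ee : ε * ε = 1 := by
    have h1 := H_sq hh (hb.F_ne s1)
    rw [F1] at h1
    linear_combination h1 - ε * ε * sv
  -- the two values of `g`
  have G1 := (stepA hh hv hb hf hm1 im1.1 im1.2.1 im1.2.2 xm1 Xm1).1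
  have G2 := (stepA hh hv hb hf hm2 im2.1 im2.2.1 im2.2.2 xm2 Xm2).2
  rw [neg_neg] at G2
  -- the negative value
  have k1 := congrArg (H h) hid
  rw [H_mul hh (hb.F_ne _) (hb.F_ne _), H_mul hh (pow_ne_zero _ hq0) (mul_ne_zero (hb _) (hb _)),
    H_mul hh (hb _) (hb _), H_pow3 hh hq0, H_nat hh, F1, G1, G2] at k1
  have F2 : H h (F b 1 s2) = h q := by
    linear_combination (ε * H h v) * k1 + (h q * h 2 * h 2 * ε * ε - H h (F b 1 s2) * ε * ε) * sv +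
      (h q * ε * ε) * s2' + (h q - H h (F b 1 s2)) * ee
  -- the reflection
  have hrefl : b + 6 - s2 = s1 + q := by linarith
  have k2 := congrArg (H h) (id3 h8 s2)
  rw [hrefl, H_neg, H_mul hh (hb.F_ne _) (hb.F_ne _), H_mul hh (pow_ne_zero _ h8') (hb _),
    H_pow3 hh h8', F2, F1', stepA' hh hv hb hf ht it xt Xt] at k2
  have s8 := H_sq hh h8'
  by_cases hc : 8 < b
  · rw [if_pos (hsgn.2 hc)] at k2
    rw [if_pos hc]
    linear_combination (-ε * H h v) * k2 - (h q * ε * ε) * sv - h q * ee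
  · rw [if_neg (fun h' => hc (hsgn.1 h'))] at k2
    rw [if_neg hc]
    linear_combination (-ε * H h v) * k2 + (H h (b - 8) * h 2 * ε * ε - h q * ε * ε) * sv +
      (H h (b - 8) * h 2 - h q) * ee

end Pool.Agent.Lib_helper96.CUB
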