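import Pool.Agent.Lib_helper96.CUB.Fam

/-!
The example `X^3 + X^2 + 11 X + 83`.
-/

namespace Pool.Agent.Lib_helper96.CUB

open Pool.Agent.Lib_helper11.CUB Pool.Agent.Lib_helper3.CYC

theorem IA_two {z : ℚ} (hz : z ∈ ZZ) : IA 2 2 z := by
  obtain ⟨y, hy⟩ := mem_ZZ.1 hz
  refine ⟨mem_ZZ.2 ⟨2 * y ^ 2, by push_cast; rw [hy]⟩,
    mem_ZZ.2 ⟨2 * (y ^ 2 + 4), by push_cast; rw [hy]⟩,
    mem_ZZ.2 ⟨2 * y ^ 2 + ((y - 1) ^ 3 - 2 * (y - 2)), ?_⟩⟩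
  push_cast; rw [hy]; unfold g; ring

theorem tau_two {t : ℚ} {y : ℤ} (ht : t = y) (h : y % 6 = 3 ∨ y % 6 = 5) : tau 2 t ∈ ZZ := by
  have h1 : ∃ m : ℤ, 7 - (y - 4) ^ 2 = 6 * m := by
    have h2 : (7 - (y - 4) ^ 2) % 6 = 0 := by
      have h3 : ((y - 4) ^ 2) % 6 = 1 := by
        rcases h with h | h
        · have : (y - 4) % 6 = 5 := by omega
          rw [pow_two, Int.mul_emod, this]; norm_num
        · have : (y - 4) % 6 = 1 := by omega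
          rw [pow_two, Int.mul_emod, this]; norm_num
      omega
    exact ⟨(7 - (y - 4) ^ 2) / 6, by omega⟩
  obtain ⟨m, hm⟩ := h1
  refine mem_ZZ.2 ⟨m, ?_⟩
  have hm' : (7 : ℚ) - (y - 4) ^ 2 = 6 * m := by exact_mod_cast hm
  unfold tau
  rw [ht]
  linear_combination (-1 / 6 : ℚ) * hm'

/-- Integrality for `b = 2`, `v = 2`. -/
theorem IH_two {q c : ℕ} (hqc : q * c = 6)
    (hs : ∀ X Y : ℤ, Un q 6 X Y → 0 ≤ uu q 2 X Y ∨ (-1 - (q : ℤ)) % 6 = 3 ∨ (-1 - (q : ℤ)) % 6 = 5) :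
    IH q 2 2 := by
  have hq0 : (q : ℚ) ≠ 0 := by
    intro h0
    have : q = 0 := by exact_mod_cast h0
    rw [this] at hqc
    omega
  have hqcq : (q : ℚ) * c = 6 := by exact_mod_cast hqc
  have h6q : (6 : ℚ) / q = c := by rw [← hqcq]; field_simp
  refine ⟨6, by norm_num, fun X Y hXY => ?_⟩
  have hs := hs X Y hXY
  obtain ⟨e1, e2, e2', ⟨k, hk⟩, ⟨l, hl⟩⟩ := hXY
  obtain ⟨u, hu⟩ : ∃ u : ℚ, u = uu q 2 X Y := ⟨_, rfl⟩
  obtain ⟨w, hw⟩ : ∃ w : ℚ, w = ww q 2 X Y := ⟨_, rfl⟩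
  have hX : (X : ℚ) = 1 + 2 * q * 6 * k := by
    have : X = 1 + 2 * q * 6 * k := by linear_combination hk
    rw [this]; push_cast; ring
  have hY : (Y : ℚ) = 2 * 6 * l := by rw [hl]; push_cast; ring
  have u1 : (6 + 2 - q + u) / 2 =
      ((-1 - (q : ℤ) + 6 * (-(10 + q) * q * k + (1 + q) * 6 * l) : ℤ) : ℚ) := by
    rw [hu]; unfold uu; rw [hX, hY]; push_cast; ring
  have u2 : (6 + 2 - q - u) / 2 =
      ((9 - 6 * (-(10 + q) * q * k + (1 + q) * 6 * l) : ℤ) : ℚ) := by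
    rw [hu]; unfold uu; rw [hX, hY]; push_cast; ring
  have w0 : w = c + 6 + 12 * ((6 + 6 * q) * k - (10 + q) * l) := by
    rw [hw]; unfold ww; rw [hX, hY]
    have : (8 + 6 * q - 2 : ℚ) / q = c + 6 := by rw [← h6q]; field_simp; ring
    rw [this]
    linear_combination (12 * (k : ℚ)) * hqcq
  have w1 : ((8 - 2) / q + w) / 2 = ((c + 3 + 6 * ((6 + 6 * q) * k - (10 + q) * l) : ℤ) : ℚ) := by
    rw [show (8 - 2 : ℚ) = 6 by norm_num, h6q, w0]; push_cast; ring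
  have w2 : ((8 - 2) / q - w) / 2 = ((-3 - 6 * ((6 + 6 * q) * k - (10 + q) * l) : ℤ) : ℚ) := by
    rw [show (8 - 2 : ℚ) = 6 by norm_num, h6q, w0]; push_cast; ring
  rw [← hu] at hs ⊢
  rw [← hw]
  have A1 : (6 + 2 - q + |u|) / 2 ∈ ZZ := by
    rcases le_total 0 u with h | h
    · rw [abs_of_nonneg h, u1]; exact int_mem _
    · rw [abs_of_nonpos h, ← sub_eq_add_neg, u2]; exact int_mem _
  have A3 : ((8 - 2) / q + |w|) / 2 ∈ ZZ := by
    rcases le_total 0 w with h | h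
    · rw [abs_of_nonneg h, w1]; exact int_mem _
    · rw [abs_of_nonpos h, ← sub_eq_add_neg, w2]; exact int_mem _
  have A4 : ((8 - 2) / q - |w|) / 2 ∈ ZZ := by
    rcases le_total 0 w with h | h
    · rw [abs_of_nonneg h, w2]; exact int_mem _
    · rw [abs_of_nonpos h, sub_neg_eq_add, w1]; exact int_mem _
  have A5 : tau 2 ((6 + 2 - q - |u|) / 2) ∈ ZZ := by
    rcases le_total 0 u with h | h
    · rw [abs_of_nonneg h]
      exact tau_two u2 (by omega)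
    · rw [abs_of_nonpos h, sub_neg_eq_add]
      rcases hs with h' | h' | h'
      · have h0 : u = 0 := le_antisymm h h'
        rw [h0, add_zero]
        rw [h0, sub_zero] at u2
        exact tau_two u2 (by omega)
      · exact tau_two u1 (by omega)
      · exact tau_two u1 (by omega)
  have Aq : ((q : ℕ) : ℚ) ∈ ZZ := mem_ZZ.2 ⟨q, by push_cast; rfl⟩
  have two_mem : (2 : ℚ) ∈ ZZ := mem_ZZ.2 ⟨2, by norm_num⟩
  refine ⟨mul_mem two_mem A1, mul_mem two_mem (add_mem A1 Aq), IA_two A3, IA_two (neg_mem A4),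
    IA_two ?_⟩
  rcases abs_choice (tau 2 ((6 + 2 - q - |u|) / 2)) with h | h
  · rw [h]; exact A5
  · rw [h]; exact neg_mem A5

theorem NR_two : NR 2 := by
  intro s h
  unfold g at h
  obtain ⟨t, ht⟩ : ∃ t : ℚ, t = s - 1 := ⟨_, rfl⟩
  have h1 : t ^ 3 - 2 * t + 2 = 0 := by rw [ht]; linear_combination h
  have hd : (t.den : ℚ) ≠ 0 := by exact_mod_cast t.den_ne_zero
  have hn : t = t.num / t.den := (Rat.num_div_den t).symm
  have h2 : t.num ^ 3 - 2 * t.num * (t.den : ℤ) ^ 2 + 2 * (t.den : ℤ) ^ 3 = 0 := by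
    have : (t.num : ℚ) ^ 3 - 2 * t.num * (t.den : ℚ) ^ 2 + 2 * (t.den : ℚ) ^ 3 = 0 := by
      rw [hn] at h1
      field_simp at h1
      linear_combination h1
    exact_mod_cast this
  have hc : Nat.Coprime t.num.natAbs t.den := t.reduced
  have e1 : (2 : ℤ) ∣ t.num := by
    have : (2 : ℤ) ∣ t.num ^ 3 := ⟨t.num * (t.den : ℤ) ^ 2 - (t.den : ℤ) ^ 3, by linear_combination h2⟩
    exact Int.prime_two.dvd_of_dvd_pow this
  obtain ⟨a, ha⟩ := e1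
  have e2 : (2 : ℤ) ∣ (t.den : ℤ) := by
    have : (2 : ℤ) ∣ (t.den : ℤ) ^ 3 := by
      refine ⟨a * (t.den : ℤ) ^ 2 - 2 * a ^ 3, ?_⟩
      rw [ha] at h2
      have h3 : 2 * ((t.den : ℤ) ^ 3) = 2 * (2 * (a * (t.den : ℤ) ^ 2 - 2 * a ^ 3)) := by
        linear_combination h2
      exact mul_left_cancel₀ (by norm_num) h3
    exact Int.prime_two.dvd_of_dvd_pow this
  have e3 : 2 ∣ t.num.natAbs := by
    rw [← Int.natCast_dvd_natCast, Int.dvd_natAbs]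
    exact ⟨a, ha⟩
  have e4 : 2 ∣ t.den := by exact_mod_cast e2
  have := Nat.dvd_gcd e3 e4
  rw [hc] at this
  omega

theorem not_sq {q : ℕ} (a : ℕ) (h1 : a * a < q) (h2 : q < (a + 1) * (a + 1)) : ¬ IsSquare (q : ℤ) := by
  rintro ⟨r, hr⟩
  have h3 : q = r.natAbs * r.natAbs := by
    have := congrArg Int.natAbs hr
    rwa [Int.natAbs_mul, Int.natAbs_natCast] at this
  rw [h3] at h1 h2
  have h4 : a < r.natAbs := by
    by_contra h
    have : r.natAbs * r.natAbs ≤ a * a := Nat.mul_le_mul (by omega) (by omega)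
    omega
  have h5 : r.natAbs < a + 1 := by
    by_contra h
    have : (a + 1) * (a + 1) ≤ r.natAbs * r.natAbs := Nat.mul_le_mul (by omega) (by omega)
    omega
  omega

theorem u3_pos (X Y : ℤ) (h : Un (3 : ℕ) 6 X Y) : 0 ≤ uu (3 : ℕ) 2 X Y := by
  obtain ⟨e1, e2, e2', e3, ⟨l, hl⟩⟩ := h
  have hY : 12 ≤ Y := by
    have : 1 ≤ l := by
      by_contra hc
      have : l ≤ 0 := by omega
      nlinarith
    nlinarith
  have h1 : 13 * X ≤ 24 * Y := by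
    by_contra hc
    have h2 : 24 * Y < 13 * X := by omega
    have h3 : (24 * Y) ^ 2 < (13 * X) ^ 2 := by
      apply pow_lt_pow_left₀ h2 (by omega) (by norm_num)
    push_cast at e1
    nlinarith
  have h2 : (13 : ℚ) * X ≤ 24 * Y := by exact_mod_cast h1
  unfold uu
  push_cast
  linarith

theorem F_ex (m : ℤ) : F (2 : ℚ) 2 ((m + 5 : ℤ) : ℚ) = ((m ^ 3 + m ^ 2 + 11 * m + 83 : ℤ) : ℚ) := by
  unfold F; push_cast; ring

theorem ex_ne (m : ℤ) : m ^ 3 + m ^ 2 + 11 * m + 83 ≠ 0 := by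
  intro h
  have h1 := F_ex m
  rw [h] at h1
  exact NR_two.Fv_ne (v := 2) (by norm_num) _ (by rw [h1]; simp)

theorem example_ : ∃ K : ℕ, ∀ h : ℕ → ℤ, CM h → h 2 = -1 ∨ h 3 = -1 → ∀ x : ℕ, 1 ≤ x →
    (∃ n : ℤ, (x : ℤ) ≤ n ∧ n ≤ K * (x : ℤ) ^ 6 ∧ h (n ^ 3 + n ^ 2 + 11 * n + 83).natAbs = 1) ∧
    ∃ n : ℤ, (x : ℤ) ≤ n ∧ n ≤ K * (x : ℤ) ^ 6 ∧ h (n ^ 3 + n ^ 2 + 11 * n + 83).natAbs = -1 := by
  have i2 : IH 2 2 2 := IH_two (c := 3) (by norm_num) fun X Y _ => Or.inr (Or.inl (by norm_num))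
  have i3 : IH 3 2 2 := IH_two (c := 2) (by norm_num) fun X Y h => Or.inl (u3_pos X Y h)
  have i6 : IH 6 2 2 := IH_two (c := 1) (by norm_num) fun X Y _ => Or.inr (Or.inr (by norm_num))
  have s2 : ¬ IsSquare ((2 : ℕ) : ℤ) := not_sq 1 (by norm_num) (by norm_num)
  have s3 : ¬ IsSquare ((3 : ℕ) : ℤ) := not_sq 1 (by norm_num) (by norm_num)
  have s6 : ¬ IsSquare ((6 : ℕ) : ℤ) := not_sq 2 (by norm_num) (by norm_num)
  obtain ⟨K1, hK1⟩ := two s2 s3 (v := 2) (by norm_num) NR_two i2 i3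
  obtain ⟨K2, hK2⟩ := two s2 s6 (v := 2) (by norm_num) NR_two i2 i6
  refine ⟨max K1 K2 * 6 ^ 6, fun h hh hc x hx => ?_⟩
  have hK : ∀ ε : ℤ, ¬ ∀ n : ℤ, ((x + 5 : ℕ) : ℚ) ≤ n →
      (n : ℚ) ≤ (max K1 K2 : ℕ) * ((x + 5 : ℕ) : ℚ) ^ 6 → H h (F 2 2 n) = ε := by
    intro ε hε
    have hp : (0 : ℚ) ≤ ((x + 5 : ℕ) : ℚ) ^ 6 := by positivity
    have k1 : (K1 : ℚ) * ((x + 5 : ℕ) : ℚ) ^ 6 ≤ (max K1 K2 : ℕ) * ((x + 5 : ℕ) : ℚ) ^ 6 :=
      mul_le_mul_of_nonneg_right (by exact_mod_cast le_max_left K1 K2) hp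
    have k2 : (K2 : ℚ) * ((x + 5 : ℕ) : ℚ) ^ 6 ≤ (max K1 K2 : ℕ) * ((x + 5 : ℕ) : ℚ) ^ 6 :=
      mul_le_mul_of_nonneg_right (by exact_mod_cast le_max_right K1 K2) hp
    by_cases h23 : h 2 = h 3
    · have h2 : h 2 = -1 := by
        rcases hc with hc | hc
        · exact hc
        · rw [h23]; exact hc
      have h6 : h 6 = 1 := by
        rw [show (6 : ℕ) = 2 * 3 by norm_num, hh.mul 2 3 (by norm_num) (by norm_num), ← h23, h2]
        norm_num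
      exact hK2 h hh (by rw [h2, h6]; norm_num) (x + 5) (by omega) ε
        fun n a b => hε n a (b.trans k2)
    · exact hK1 h hh h23 (x + 5) (by omega) ε fun n a b => hε n a (b.trans k1)
  have hx1 : (1 : ℚ) ≤ x := by exact_mod_cast hx
  have hx6 : ((x + 5 : ℕ) : ℚ) ^ 6 ≤ 6 ^ 6 * (x : ℚ) ^ 6 := by
    rw [← mul_pow]
    apply pow_le_pow_left₀ (by positivity)
    push_cast; linarith
  have key := signs hh (f := fun n => n ^ 3 + n ^ 2 + 11 * n + 83) ex_ne (lo := x)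
    (hi := (max K1 K2 * 6 ^ 6 : ℕ) * (x : ℚ) ^ 6) (by
    intro ε hε
    refine hK ε fun n a b => ?_
    have e := F_ex (n - 5)
    rw [sub_add_cancel] at e
    rw [e]
    refine hε (n - 5) ?_ ?_
    · push_cast at a ⊢; linarith
    · have h1 : (max K1 K2 : ℕ) * ((x + 5 : ℕ) : ℚ) ^ 6 ≤ (max K1 K2 : ℕ) * (6 ^ 6 * (x : ℚ) ^ 6) :=
        mul_le_mul_of_nonneg_left hx6 (Nat.cast_nonneg _)
      push_cast at a b h1 ⊢
      linarith)
  obtain ⟨⟨n1, a1, a2, a3⟩, ⟨n2, b1, b2, b3⟩⟩ := key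
  exact ⟨⟨n1, by exact_mod_cast a1, by exact_mod_cast a2, a3⟩,
    ⟨n2, by exact_mod_cast b1, by exact_mod_cast b2, b3⟩⟩

end Pool.Agent.Lib_helper96.CUB
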