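import Pool.Agent.Lib_helper96.CUB.Main
import Pool.Agent.Lib_helper11.CUB.Main

/-!
The explicit cubics: `k (P θ + S)^2` for `θ^3 = P θ - S`, and `X^3 + X^2 + 11 X + 83`.
-/

namespace Pool.Agent.Lib_helper96.CUB

open Pool.Agent.Lib_helper11.CUB Pool.Agent.Lib_helper3.CYC

theorem IA_of {b v z : ℚ} {D j : ℤ} (hv : v = 2 * (D : ℚ) ^ 3 * j) (hb : (D : ℚ) * b ∈ ZZ)
    (hz : (D : ℚ) * z ∈ ZZ) : IA b v z := by
  obtain ⟨m, hm⟩ := mem_ZZ.1 hb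
  obtain ⟨y, hy⟩ := mem_ZZ.1 hz
  refine ⟨mem_ZZ.2 ⟨2 * D * j * y ^ 2, ?_⟩, mem_ZZ.2 ⟨2 * D * j * y ^ 2 + 8 * D ^ 3 * j, ?_⟩,
    mem_ZZ.2 ⟨2 * D * j * y ^ 2 + j * ((y - D) ^ 3 - m * D * (y - 2 * D)), ?_⟩⟩
  · push_cast; rw [hy, hv]; ring
  · push_cast; rw [hy, hv]; ring
  · push_cast; rw [hy, hm, hv]; unfold g; ring

/-- Denominator of all arguments. -/
def DD (P S : ℤ) (q : ℕ) : ℤ := 4 * |P ^ 3 - 8 * S ^ 2| * (q * S ^ 2) ^ 2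

theorem abs_mem {D : ℚ} {t : ℚ} (h : D * t ∈ ZZ) : D * |t| ∈ ZZ := by
  rcases le_total 0 t with h0 | h0
  · rwa [abs_of_nonneg h0]
  · rw [abs_of_nonpos h0, mul_neg]
    exact neg_mem h

theorem IH_gen {P S : ℤ} (hS : S ≠ 0) (h8 : P ^ 3 - 8 * S ^ 2 ≠ 0) {q : ℕ} (hq : q ≠ 0) {v : ℚ} {j : ℤ}
    (hv : v = 2 * (DD P S q : ℚ) ^ 3 * j) : IH q ((P : ℚ) ^ 3 / (S : ℚ) ^ 2) v := by
  have hSq : (S : ℚ) ≠ 0 := by exact_mod_cast hS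
  have hq0 : ((q : ℤ) : ℚ) ≠ 0 := by exact_mod_cast hq
  obtain ⟨b, hb⟩ : ∃ b : ℚ, b = (P : ℚ) ^ 3 / (S : ℚ) ^ 2 := ⟨_, rfl⟩
  have hbS' : b * (S : ℚ) ^ 2 = P ^ 3 := by rw [hb]; field_simp
  have hbS : b * (S : ℚ) ^ 2 ∈ ZZ := mem_ZZ.2 ⟨P ^ 3, by rw [hbS']; push_cast; rfl⟩
  rw [← hb]
  obtain ⟨c, hc⟩ : ∃ c : ℤ, c = P ^ 3 - 8 * S ^ 2 := ⟨_, rfl⟩
  have hcq : (c : ℚ) = (S : ℚ) ^ 2 * (b - 8) := by
    rw [hc]; push_cast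
    linear_combination -hbS'
  rw [← hc] at h8
  have hb8 : b - 8 ≠ 0 := by
    intro h0
    rw [h0, mul_zero] at hcq
    exact h8 (by exact_mod_cast hcq)
  have hDD : DD P S q = 4 * |c| * (q * S ^ 2) ^ 2 := by rw [hc]; rfl
  -- everything with denominator `q S ^ 2`
  have lift : ∀ t : ℚ, ((q : ℤ) : ℚ) * S ^ 2 * t ∈ ZZ → (DD P S q : ℚ) * t ∈ ZZ := by
    intro t ht
    obtain ⟨m, hm⟩ := mem_ZZ.1 ht
    refine mem_ZZ.2 ⟨4 * |c| * (q * S ^ 2) * m, ?_⟩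
    rw [hDD]; push_cast at hm ⊢
    rw [hm]; ring
  have hbD : (DD P S q : ℚ) * b ∈ ZZ := by
    apply lift
    refine mem_ZZ.2 ⟨q * P ^ 3, ?_⟩
    push_cast
    linear_combination (-(q : ℚ)) * hbS'
  refine ⟨S ^ 2, by positivity, fun X Y hXY => ?_⟩
  obtain ⟨e1, e2, e2', e3, e4⟩ := hXY
  obtain ⟨u, hu⟩ : ∃ u : ℚ, u = uu q b X Y := ⟨_, rfl⟩
  obtain ⟨w, hw⟩ : ∃ w : ℚ, w = ww q b X Y := ⟨_, rfl⟩
  have hlat := pell_lat (q := q) (S := S) (b := b) hq0 hbS e3 e4 (u := u)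
    (w := w) (by rw [hu]; unfold uu; push_cast; ring) (by rw [hw]; unfold ww; push_cast; ring)
  have L1 := abs_lat hlat.1.1 hlat.1.2
  have L2 := abs_lat hlat.2.1 hlat.2.2
  rw [← hu, ← hw]
  have vs : ∀ t : ℚ, (DD P S q : ℚ) * t ∈ ZZ → v * t ∈ ZZ := by
    intro t ht
    obtain ⟨m, hm⟩ := mem_ZZ.1 ht
    refine mem_ZZ.2 ⟨2 * (DD P S q) ^ 2 * j * m, ?_⟩
    push_cast
    rw [hm, hv]; ring
  have L1' := L1.1
  have L1'' := L1.2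
  have L2' := L2.1
  have L2'' := L2.2
  push_cast at L1' L1'' L2' L2''
  have qq : ((q : ℤ) : ℚ) = q := by push_cast; rfl
  rw [qq] at lift
  refine ⟨vs _ (lift _ L1'), vs _ ?_, IA_of hv hbD (lift _ L2'),
    IA_of hv hbD (by rw [mul_neg]; exact neg_mem (lift _ L2'')), IA_of hv hbD (abs_mem ?_)⟩
  · rw [mul_add]
    exact add_mem (lift _ L1') (mem_ZZ.2 ⟨DD P S q * q, by push_cast; rfl⟩)
  · -- the argument of the reflection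
    obtain ⟨t, ht⟩ : ∃ t : ℚ, t = (6 + b - q - |u|) / 2 := ⟨_, rfl⟩
    rw [← ht] at L1'' ⊢
    obtain ⟨y, hy⟩ := mem_ZZ.1 L1''
    obtain ⟨r, hr⟩ : ∃ r : ℚ, r = tau b t := ⟨_, rfl⟩
    have h1 : 4 * (b - 8) * r = (2 * t - b - 6) ^ 2 - (b ^ 2 - 12 * b + 48) := by
      rw [hr]; unfold tau; field_simp
    rw [← hr]
    have h2 : (4 * c * (q * S ^ 2) ^ 2 : ℚ) * r = S ^ 2 * ((2 * y - q * P ^ 3 - 6 * (q * S ^ 2)) ^ 2 -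
        ((q * P ^ 3) ^ 2 - 12 * (q * S ^ 2) * (q * P ^ 3) + 48 * (q * S ^ 2) ^ 2)) := by
      rw [hcq, hy, ← hbS']
      linear_combination ((S : ℚ) ^ 2 * (q * S ^ 2) ^ 2) * h1
    have h3 : (DD P S q : ℚ) * r = 4 * |(c : ℚ)| * (q * S ^ 2) ^ 2 * r := by
      rw [hDD]; push_cast; ring
    have h4 : (4 * c * (q * S ^ 2) ^ 2 : ℚ) * r ∈ ZZ := by
      rw [h2]
      exact mem_ZZ.2 ⟨S ^ 2 * ((2 * y - q * P ^ 3 - 6 * (q * S ^ 2)) ^ 2 -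
        ((q * P ^ 3) ^ 2 - 12 * (q * S ^ 2) * (q * P ^ 3) + 48 * (q * S ^ 2) ^ 2)), by push_cast; ring⟩
    rw [h3]
    rcases abs_choice (c : ℚ) with h5 | h5
    · rw [h5]; exact h4
    · rw [h5]
      have e : 4 * -(c : ℚ) * (q * S ^ 2) ^ 2 * r = -(4 * c * (q * S ^ 2) ^ 2 * r) := by ring
      rw [e]
      exact neg_mem h4

/-- The minimal polynomial of `k (P θ + S) ^ 2`, `θ ^ 3 = P θ - S`. -/
def fk {R : Type*} [CommRing R] (P S k n : R) : R :=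
  n ^ 3 - k * (2 * P ^ 3 + 3 * S ^ 2) * n ^ 2 +
    k ^ 2 * (P ^ 6 + 6 * P ^ 3 * S ^ 2 + 3 * S ^ 4) * n - k ^ 3 * S ^ 2 * (2 * P ^ 3 - S ^ 2) ^ 2

theorem fk_root {R : Type*} [CommRing R] (P S k θ : R) (h : θ ^ 3 = P * θ - S) :
    fk P S k (k * (P * θ + S) ^ 2) = 0 := by
  have h4 : θ ^ 4 = P * θ ^ 2 - S * θ := by linear_combination θ * h
  have h5 : θ ^ 5 = P ^ 2 * θ - P * S - S * θ ^ 2 := by linear_combination θ ^ 2 * h + P * h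
  have h6 : θ ^ 6 = P ^ 2 * θ ^ 2 - 2 * P * S * θ + S ^ 2 := by
    linear_combination (θ ^ 3 + P * θ - S) * h
  have e1 : (P * θ + S) ^ 2 = P ^ 2 * θ ^ 2 + 2 * P * S * θ + S ^ 2 := by ring
  have e2 : ((P * θ + S) ^ 2) ^ 2 =
      P ^ 4 * θ ^ 4 + 4 * P ^ 3 * S * θ ^ 3 + 6 * P ^ 2 * S ^ 2 * θ ^ 2 + 4 * P * S ^ 3 * θ + S ^ 4 := by
    ring
  have e3 : ((P * θ + S) ^ 2) ^ 3 =
      P ^ 6 * θ ^ 6 + 6 * P ^ 5 * S * θ ^ 5 + 15 * P ^ 4 * S ^ 2 * θ ^ 4 + 20 * P ^ 3 * S ^ 3 * θ ^ 3 +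
        15 * P ^ 2 * S ^ 4 * θ ^ 2 + 6 * P * S ^ 5 * θ + S ^ 6 := by
    ring
  unfold fk
  rw [mul_pow k, mul_pow k, e3, e2, e1, h6, h5, h4, h]
  ring

theorem fk_eq {P S : ℤ} (hS : S ≠ 0) (k n : ℤ) :
    ((fk P S k n : ℤ) : ℚ) = F ((P : ℚ) ^ 3 / (S : ℚ) ^ 2) (k * (S : ℚ) ^ 2) n := by
  have hSq : (S : ℚ) ≠ 0 := by exact_mod_cast hS
  unfold fk F
  push_cast
  field_simp

theorem NR_of {P S : ℤ} (hP : P ≠ 0) (hS : S ≠ 0) (hirr : ∀ y : ℚ, y ^ 3 - P * y + S ≠ 0) :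
    NR ((P : ℚ) ^ 3 / (S : ℚ) ^ 2) := by
  intro s h
  have hSq : (S : ℚ) ≠ 0 := by exact_mod_cast hS
  have hPq : (P : ℚ) ≠ 0 := by exact_mod_cast hP
  apply hirr ((s - 1) * S / P)
  unfold g at h
  field_simp at h ⊢
  linear_combination (S : ℚ) * h

/-- Both signs, from a function which is not constant. -/
theorem signs {h : ℕ → ℤ} (hh : CM h) {f : ℤ → ℤ} (hf0 : ∀ n, f n ≠ 0) {lo hi : ℚ}
    (hnc : ∀ ε : ℤ, ¬ ∀ n : ℤ, lo ≤ n → (n : ℚ) ≤ hi → H h (f n : ℚ) = ε) :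
    (∃ n : ℤ, lo ≤ n ∧ (n : ℚ) ≤ hi ∧ h (f n).natAbs = 1) ∧
      ∃ n : ℤ, lo ≤ n ∧ (n : ℚ) ≤ hi ∧ h (f n).natAbs = -1 := by
  have hv : ∀ n, h (f n).natAbs = 1 ∨ h (f n).natAbs = -1 := fun n =>
    hh.values _ (Int.natAbs_pos.2 (hf0 n))
  constructor
  · have := hnc (-1)
    push Not at this
    obtain ⟨n, h1, h2, h3⟩ := this
    rw [H_int hh] at h3
    exact ⟨n, h1, h2, (hv n).resolve_right h3⟩
  · have := hnc 1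
    push Not at this
    obtain ⟨n, h1, h2, h3⟩ := this
    rw [H_int hh] at h3
    exact ⟨n, h1, h2, (hv n).resolve_left h3⟩

theorem family (P S : ℤ) (hP : P ≠ 0) (hirr : ∀ y : ℚ, y ^ 3 - P * y + S ≠ 0) {p : ℕ}
    (hp : p.Prime) : ∃ k0 : ℕ, 0 < k0 ∧ ∀ k : ℕ, 0 < k → k0 ∣ k → ∃ K : ℕ, ∀ h : ℕ → ℤ, CM h →
      h p = -1 → ∀ x : ℕ, 1 ≤ x →
        (∃ n : ℤ, (x : ℤ) ≤ n ∧ n ≤ K * (x : ℤ) ^ 6 ∧ h (fk P S k n).natAbs = 1) ∧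
        ∃ n : ℤ, (x : ℤ) ≤ n ∧ n ≤ K * (x : ℤ) ^ 6 ∧ h (fk P S k n).natAbs = -1 := by
  have hS : S ≠ 0 := by
    rintro rfl
    exact hirr 0 (by simp)
  have hSq : (S : ℚ) ≠ 0 := by exact_mod_cast hS
  have hb := NR_of hP hS hirr
  have h8 : P ^ 3 - 8 * S ^ 2 ≠ 0 := by
    intro h0
    apply hb.ne8
    have h1 : ((P ^ 3 - 8 * S ^ 2 : ℤ) : ℚ) = 0 := by rw [h0]; rfl
    push_cast at h1
    field_simp
    linear_combination h1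
  -- two numbers which are not squares
  obtain ⟨r, hr, hrp⟩ : ∃ r : ℕ, r.Prime ∧ r ≠ p := by
    by_cases h2 : p = 2
    · exact ⟨3, Nat.prime_three, by omega⟩
    · exact ⟨2, Nat.prime_two, fun h => h2 h.symm⟩
  have sq1 : ¬ IsSquare (r : ℤ) := not_isSquare_prime hr
  have sq2 : ¬ IsSquare ((p * r : ℕ) : ℤ) := by
    rintro ⟨t, ht⟩
    have h1 : (p : ℤ) ∣ t * t := ⟨r, by rw [← ht]; push_cast; ring⟩
    have hpp : Prime (p : ℤ) := Nat.prime_iff_prime_int.1 hp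
    have h2 : (p : ℤ) ∣ t := by rcases hpp.dvd_or_dvd h1 with h | h <;> exact h
    obtain ⟨m, hm⟩ := h2
    have h3 : (p : ℤ) * r = p * (p * (m * m)) := by
      have : (p : ℤ) * r = t * t := by rw [← ht]; push_cast; ring
      rw [this, hm]; ring
    have h4 : (r : ℤ) = p * (m * m) := mul_left_cancel₀ hpp.ne_zero h3
    have h5 : (p : ℤ) ∣ r := ⟨_, h4⟩
    have h6 : p ∣ r := by exact_mod_cast h5
    exact hrp ((Nat.prime_dvd_prime_iff_eq hp hr).1 h6).symm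
  have hr0 : r ≠ 0 := hr.ne_zero
  have hpr0 : p * r ≠ 0 := Nat.mul_ne_zero hp.ne_zero hr.ne_zero
  have hD : ∀ q : ℕ, q ≠ 0 → 0 < DD P S q := by
    intro q hq
    have : 0 < |P ^ 3 - 8 * S ^ 2| := abs_pos.2 h8
    have : (0 : ℤ) < q := by exact_mod_cast Nat.pos_of_ne_zero hq
    unfold DD
    positivity
  have d1 := hD r hr0
  have d2 := hD (p * r) hpr0
  obtain ⟨D1, hD1⟩ := Int.eq_ofNat_of_zero_le d1.le
  obtain ⟨D2, hD2⟩ := Int.eq_ofNat_of_zero_le d2.le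
  have d1' : 0 < D1 := by rw [hD1] at d1; exact_mod_cast d1
  have d2' : 0 < D2 := by rw [hD2] at d2; exact_mod_cast d2
  refine ⟨2 * D1 ^ 3 * D2 ^ 3, by positivity, fun k hk hdiv => ?_⟩
  obtain ⟨j, hj⟩ := hdiv
  have hv : (0 : ℚ) < ((k : ℤ) : ℚ) * (S : ℚ) ^ 2 := by
    have : (0 : ℚ) < ((k : ℤ) : ℚ) := by exact_mod_cast hk
    positivity
  have hkq : ((k : ℤ) : ℚ) = 2 * (D1 : ℚ) ^ 3 * (D2 : ℚ) ^ 3 * j := by rw [hj]; push_cast; ring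
  have I1 : IH r ((P : ℚ) ^ 3 / (S : ℚ) ^ 2) (((k : ℤ) : ℚ) * (S : ℚ) ^ 2) :=
    IH_gen hS h8 hr0 (j := D2 ^ 3 * j * S ^ 2) (by rw [hkq, hD1]; push_cast; ring)
  have I2 : IH (p * r) ((P : ℚ) ^ 3 / (S : ℚ) ^ 2) (((k : ℤ) : ℚ) * (S : ℚ) ^ 2) :=
    IH_gen hS h8 hpr0 (j := D1 ^ 3 * j * S ^ 2) (by rw [hkq, hD2]; push_cast; ring)
  obtain ⟨K, hK⟩ := two sq1 sq2 hv hb I1 I2
  refine ⟨K, fun h hh hhp x hx => ?_⟩
  have hne : h r ≠ h (p * r) := by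
    rw [hh.mul _ _ hp.one_lt.le hr.one_lt.le, hhp]
    rcases hh.values r hr.one_lt.le with h1 | h1 <;> rw [h1] <;> norm_num
  have h0 : ∀ n : ℤ, fk P S k n ≠ 0 := by
    intro n hn
    have h1 := fk_eq (P := P) hS k n
    rw [hn] at h1
    exact hb.Fv_ne hv.ne' n (by rw [← h1]; simp)
  have key := signs hh (f := fun n => fk P S k n) h0 (lo := x) (hi := K * (x : ℚ) ^ 6) (by
    intro ε hε
    refine hK h hh hne x hx ε fun n h1 h2 => ?_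
    rw [← fk_eq hS]
    exact hε n h1 h2)
  obtain ⟨⟨n1, a1, a2, a3⟩, ⟨n2, b1, b2, b3⟩⟩ := key
  exact ⟨⟨n1, by exact_mod_cast a1, by exact_mod_cast a2, a3⟩,
    ⟨n2, by exact_mod_cast b1, by exact_mod_cast b2, b3⟩⟩

end Pool.Agent.Lib_helper96.CUB
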