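import Pool.Agent.Lib_helper96.CUB.Core

/-!
`h` is not constant along `F_{b,v}` on `[x, K x^6]`, if `h(q₁) ≠ h(q₂)` for two numbers which are not
squares.
-/

namespace Pool.Agent.Lib_helper96.CUB

open Pool.Agent.Lib_helper11.CUB Pool.Agent.Lib_helper3.CYC

/-- Size of the argument of the reflection identity. -/
theorem tau_size {b t T0 : ℚ} (h8 : b ≠ 8) (h1 : 1 ≤ T0) (h2 : |b + 6| ≤ T0)
    (h3 : 2 * |b ^ 2 - 12 * b + 48| ≤ T0) (ht : T0 ≤ t) :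
    t ^ 2 / (8 * |b - 8|) ≤ |tau b (-t)| ∧ |tau b (-t)| ≤ 3 * t ^ 2 / |b - 8| ∧
      (0 < tau b (-t) ↔ 8 < b) := by
  have h8' : b - 8 ≠ 0 := sub_ne_zero.2 h8
  have ha : 0 < |b - 8| := abs_pos.2 h8'
  obtain ⟨R, hR⟩ : ∃ R : ℚ, R = b ^ 2 - 12 * b + 48 := ⟨_, rfl⟩
  rw [← hR] at h3
  have r1 := abs_le.1 h2
  have r2 := le_abs_self R
  have r3 := neg_abs_le R
  have t1 : 1 ≤ t := h1.trans ht
  have tt : t ≤ t ^ 2 := by nlinarith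
  have n1 : t ≤ 2 * t + b + 6 := by linarith [r1.1]
  have n2 : 2 * t + b + 6 ≤ 3 * t := by linarith [r1.2]
  have n3 : t ^ 2 ≤ (2 * t + b + 6) ^ 2 := pow_le_pow_left₀ (by linarith) n1 2
  have n4 : (2 * t + b + 6) ^ 2 ≤ 9 * t ^ 2 := by
    calc (2 * t + b + 6) ^ 2 ≤ (3 * t) ^ 2 := pow_le_pow_left₀ (by linarith) n2 2
      _ = _ := by ring
  have e : tau b (-t) = ((2 * t + b + 6) ^ 2 - R) / (4 * (b - 8)) := by
    unfold tau; rw [hR]; ring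
  have m1 : t ^ 2 / 2 ≤ (2 * t + b + 6) ^ 2 - R := by nlinarith
  have m2 : (2 * t + b + 6) ^ 2 - R ≤ 10 * t ^ 2 := by nlinarith
  have mp : 0 < (2 * t + b + 6) ^ 2 - R := by nlinarith
  have ea : |tau b (-t)| = ((2 * t + b + 6) ^ 2 - R) / (4 * |b - 8|) := by
    rw [e, abs_div, abs_of_pos mp, abs_mul, abs_of_pos (show (0 : ℚ) < 4 by norm_num)]
  refine ⟨?_, ?_, ?_⟩
  · rw [ea, div_le_div_iff₀ (by positivity) (by positivity)]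
    nlinarith
  · rw [ea, div_le_div_iff₀ (by positivity) (by positivity)]
    nlinarith [mul_nonneg ha.le (sq_nonneg t)]
  · rw [e]
    constructor
    · intro h
      by_contra hc
      have hneg : b - 8 < 0 := lt_of_le_of_ne (by linarith) h8'
      have : ((2 * t + b + 6) ^ 2 - R) / (4 * (b - 8)) < 0 :=
        div_neg_of_pos_of_neg mp (by linarith)
      linarith
    · intro h
      exact div_pos mp (by linarith)

/-- Integrality of all arguments. -/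
def IH (q : ℕ) (b v : ℚ) : Prop := ∃ N : ℤ, 0 < N ∧ ∀ X Y : ℤ, Un q N X Y →
  v * ((6 + b - q + |uu q b X Y|) / 2) ∈ ZZ ∧ v * ((6 + b - q + |uu q b X Y|) / 2 + q) ∈ ZZ ∧
  IA b v (((8 - b) / q + |ww q b X Y|) / 2) ∧ IA b v (-(((8 - b) / q - |ww q b X Y|) / 2)) ∧
  IA b v |tau b ((6 + b - q - |uu q b X Y|) / 2)|

theorem one {q : ℕ} (hq : ¬ IsSquare (q : ℤ)) {b v : ℚ} (hv : 0 < v) (hb : NR b) (hI : IH q b v) :
    ∃ K0 : ℕ, ∀ K : ℕ, K0 ≤ K → ∀ h : ℕ → ℤ, CM h → ∀ x : ℕ, 1 ≤ x → ∀ ε : ℤ,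
      (∀ n : ℤ, (x : ℚ) ≤ n → (n : ℚ) ≤ K * (x : ℚ) ^ 6 → H h (F b v n) = ε) →
        h q = h 2 * H h (b - 8) * (if 8 < b then ε * H h v else 1) := by
  have hq2 : 1 ≤ q := by
    rcases Nat.eq_zero_or_pos q with h | h
    · exact absurd ⟨0, by rw [h]; simp⟩ hq
    · exact h
  have h8 := hb.ne8
  have h8' : b - 8 ≠ 0 := sub_ne_zero.2 h8
  have ha : 0 < |b - 8| := abs_pos.2 h8'
  obtain ⟨N, hN, hI⟩ := hI
  obtain ⟨K1, hK1, hpts⟩ := pts hq b hN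
  obtain ⟨a, haa⟩ : ∃ a : ℚ, a = |b - 8| := ⟨_, rfl⟩
  rw [← haa] at ha
  have hbn := abs_nonneg b
  obtain ⟨T0, hT0⟩ := exists_nat_ge (1 + (2 + |b|) + |b + 6| + 2 * |b ^ 2 - 12 * b + 48| +
    8 * a * (2 + |b|) + 1 / v + 64 * a ^ 2 / v : ℚ)
  have p1 := abs_nonneg (b + 6)
  have p2 := abs_nonneg (b ^ 2 - 12 * b + 48)
  have p3 : 0 ≤ 8 * a * (2 + |b|) := by positivity
  have p4 : 0 ≤ 1 / v := by positivity
  have p5 : 0 ≤ 64 * a ^ 2 / v := by positivity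
  have c1 : (1 : ℚ) ≤ T0 := by linarith
  have c2 : 2 + |b| ≤ (T0 : ℚ) := by linarith
  have c3 : |b + 6| ≤ (T0 : ℚ) := by linarith
  have c4 : 2 * |b ^ 2 - 12 * b + 48| ≤ (T0 : ℚ) := by linarith
  have c5 : 8 * a * (2 + |b|) ≤ (T0 : ℚ) := by linarith
  have c6 : 1 / v ≤ (T0 : ℚ) := by linarith
  have c7 : 64 * a ^ 2 / v ≤ (T0 : ℚ) := by linarith
  rw [div_le_iff₀ hv] at c6 c7
  obtain ⟨K0, hK0⟩ := exists_nat_ge (v * (K1 * T0 + q) + 2 * v * (K1 * T0) ^ 3 +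
    2 * v * (3 * (K1 * T0) ^ 2 / a) ^ 3 : ℚ)
  have hK1n : (0 : ℚ) ≤ K1 := by linarith
  have hT0n : (0 : ℚ) ≤ T0 := by linarith
  have hqn : (0 : ℚ) ≤ q := Nat.cast_nonneg q
  have d1 : 0 ≤ v * (K1 * T0 + q) := by positivity
  have d2 : 0 ≤ 2 * v * (K1 * T0) ^ 3 := by positivity
  have d3 : 0 ≤ 2 * v * (3 * (K1 * T0) ^ 2 / a) ^ 3 := by positivity
  refine ⟨K0, fun K hK h hh x hx ε hf => ?_⟩
  have hKq : (K0 : ℚ) ≤ K := by exact_mod_cast hK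
  have hx1 : (1 : ℚ) ≤ x := by exact_mod_cast hx
  obtain ⟨T, hT⟩ : ∃ T : ℚ, T = T0 * x := ⟨_, rfl⟩
  have hTT0 : (T0 : ℚ) ≤ T := by rw [hT]; nlinarith
  have hT1 : 1 ≤ T := by linarith
  have hxT : (x : ℚ) ≤ v * T := by
    rw [hT]
    have : 1 * (x : ℚ) ≤ (T0 * v) * x := mul_le_mul_of_nonneg_right c6 (by linarith)
    linarith
  have hTT : T ≤ T ^ 2 := by nlinarith
  have hxT2 : (x : ℚ) ≤ v * T ^ 2 := hxT.trans (mul_le_mul_of_nonneg_left hTT hv.le)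
  -- the upper bounds
  have x3 : (1 : ℚ) ≤ x ^ 3 := one_le_pow₀ hx1
  have x36 : (x : ℚ) ^ 3 ≤ x ^ 6 := pow_le_pow_right₀ hx1 (by norm_num)
  have x16 : (x : ℚ) ≤ x ^ 6 := le_self_pow₀ hx1 (by norm_num)
  have x6 : (1 : ℚ) ≤ x ^ 6 := one_le_pow₀ hx1
  have x60 : (0 : ℚ) ≤ x ^ 6 := by linarith
  have U1 : v * (K1 * T + q) ≤ K * (x : ℚ) ^ 6 := by
    calc v * (K1 * T + q) = v * K1 * T0 * x + v * q * 1 := by rw [hT]; ring
      _ ≤ v * K1 * T0 * x ^ 6 + v * q * x ^ 6 :=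
        add_le_add (mul_le_mul_of_nonneg_left x16 (by positivity))
          (mul_le_mul_of_nonneg_left x6 (by positivity))
      _ = (v * (K1 * T0 + q)) * x ^ 6 := by ring
      _ ≤ K * x ^ 6 := mul_le_mul_of_nonneg_right (by linarith) x60
  have U2 : 2 * v * (K1 * T) ^ 3 ≤ K * (x : ℚ) ^ 6 := by
    calc 2 * v * (K1 * T) ^ 3 = 2 * v * (K1 * T0) ^ 3 * x ^ 3 := by rw [hT]; ring
      _ ≤ 2 * v * (K1 * T0) ^ 3 * x ^ 6 := mul_le_mul_of_nonneg_left x36 d2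
      _ ≤ K * x ^ 6 := mul_le_mul_of_nonneg_right (by linarith) x60
  have U3 : 2 * v * (3 * (K1 * T) ^ 2 / a) ^ 3 ≤ K * (x : ℚ) ^ 6 := by
    calc 2 * v * (3 * (K1 * T) ^ 2 / a) ^ 3 =
          2 * v * (3 * (K1 * (T0 : ℚ)) ^ 2 / a) ^ 3 * (x : ℚ) ^ 6 := by
          rw [hT]; ring
      _ ≤ (K : ℚ) * (x : ℚ) ^ 6 := mul_le_mul_of_nonneg_right (by linarith) x60
  obtain ⟨X, Y, hXY, ⟨a1, a1'⟩, ⟨a2, a2'⟩, ⟨a3, a3'⟩, ⟨a4, a4'⟩⟩ := hpts T hT1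
  obtain ⟨j1, j2, j3, j4, j5⟩ := hI X Y hXY
  have hid := pts_id hq b hXY.1
  obtain ⟨s1, hs1⟩ : ∃ s : ℚ, s = (6 + b - q + |uu q b X Y|) / 2 := ⟨_, rfl⟩
  obtain ⟨s2, hs2⟩ : ∃ s : ℚ, s = (6 + b - q - |uu q b X Y|) / 2 := ⟨_, rfl⟩
  obtain ⟨m1, hm1⟩ : ∃ s : ℚ, s = ((8 - b) / q + |ww q b X Y|) / 2 := ⟨_, rfl⟩
  obtain ⟨m2, hm2⟩ : ∃ s : ℚ, s = ((8 - b) / q - |ww q b X Y|) / 2 := ⟨_, rfl⟩
  rw [← hs1] at a1 a1' j1 j2
  rw [← hs2] at a2 a2' j5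
  rw [← hm1] at a3 a3' j3
  rw [← hm2] at a4 a4' j4
  rw [← hs1, ← hs2, ← hm1, ← hm2] at hid
  have hsum : s1 + s2 = 6 + b - q := by rw [hs1, hs2]; ring
  have ts := tau_size (b := b) (t := -s2) (T0 := T0) h8 c1 c3 c4 (by linarith)
  rw [neg_neg, ← haa] at ts
  obtain ⟨t1, t2, t3⟩ := ts
  have hs2T : 0 ≤ -s2 := by linarith
  have q1 : T ^ 2 ≤ (-s2) ^ 2 := pow_le_pow_left₀ (by linarith) a2 2
  have q2 : (-s2) ^ 2 ≤ (K1 * T) ^ 2 := pow_le_pow_left₀ hs2T a2' 2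
  have v1 : T ^ 2 / (8 * a) ≤ |tau b s2| :=
    (div_le_div_of_nonneg_right q1 (by positivity)).trans t1
  have v2 : |tau b s2| ≤ 3 * (K1 * T) ^ 2 / a := by
    refine t2.trans (div_le_div_of_nonneg_right ?_ (by positivity))
    linarith
  have w1 : 2 + |b| ≤ |tau b s2| := by
    refine le_trans ?_ v1
    rw [le_div_iff₀ (by positivity)]
    calc (2 + |b|) * (8 * a) = 8 * a * (2 + |b|) := by ring
      _ ≤ T0 := c5
      _ ≤ T := hTT0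
      _ ≤ T ^ 2 := hTT
  have w2 : (x : ℚ) ≤ v * |tau b s2| ^ 2 := by
    have h1 : (T ^ 2 / (8 * a)) ^ 2 ≤ |tau b s2| ^ 2 := pow_le_pow_left₀ (by positivity) v1 2
    refine le_trans ?_ (mul_le_mul_of_nonneg_left h1 hv.le)
    have h2 : v * (T ^ 2 / (8 * a)) ^ 2 = v * T ^ 4 / (64 * a ^ 2) := by
      rw [div_pow]; ring
    rw [h2, le_div_iff₀ (by positivity)]
    have h3 : (T0 : ℚ) ^ 4 * x ^ 4 = T ^ 4 := by rw [hT]; ring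
    have h4 : (x : ℚ) ≤ x ^ 4 := le_self_pow₀ hx1 (by norm_num)
    have h5 : (T0 : ℚ) ≤ T0 ^ 4 := le_self_pow₀ c1 (by norm_num)
    calc (x : ℚ) * (64 * a ^ 2) ≤ x ^ 4 * (T0 * v) := by
          apply mul_le_mul h4 c7 (by positivity) (by positivity)
      _ ≤ x ^ 4 * (T0 ^ 4 * v) := by
          apply mul_le_mul_of_nonneg_left _ (by positivity)
          exact mul_le_mul_of_nonneg_right h5 hv.le
      _ = v * (T0 ^ 4 * x ^ 4) := by ring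
      _ = v * T ^ 4 := by rw [h3]
  have w3 : 2 * v * |tau b s2| ^ 3 ≤ K * (x : ℚ) ^ 6 :=
    (mul_le_mul_of_nonneg_left (pow_le_pow_left₀ (abs_nonneg _) v2 3) (by positivity)).trans U3
  exact core hh hv hb hf hq2 hid hsum j1 (hxT.trans (mul_le_mul_of_nonneg_left a1 hv.le)) j2
    ((mul_le_mul_of_nonneg_left (by linarith) hv.le).trans U1)
    (by linarith) j3 (hxT2.trans (mul_le_mul_of_nonneg_left
      (pow_le_pow_left₀ (by linarith) a3 2) hv.le))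
    ((mul_le_mul_of_nonneg_left (pow_le_pow_left₀ (by linarith) a3' 3) (by positivity)).trans U2)
    (by linarith) j4 (hxT2.trans (mul_le_mul_of_nonneg_left
      (pow_le_pow_left₀ (by linarith) a4 2) hv.le))
    ((mul_le_mul_of_nonneg_left (pow_le_pow_left₀ (by linarith) a4' 3) (by positivity)).trans U2)
    w1 j5 w2 w3 t3

/-- The combination of two values of `q`. -/
theorem two {q1 q2 : ℕ} (hq1 : ¬ IsSquare (q1 : ℤ)) (hq2 : ¬ IsSquare (q2 : ℤ)) {b v : ℚ}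
    (hv : 0 < v) (hb : NR b) (h1 : IH q1 b v) (h2 : IH q2 b v) :
    ∃ K : ℕ, ∀ h : ℕ → ℤ, CM h → h q1 ≠ h q2 → ∀ x : ℕ, 1 ≤ x → ∀ ε : ℤ,
      ¬ ∀ n : ℤ, (x : ℚ) ≤ n → (n : ℚ) ≤ K * (x : ℚ) ^ 6 → H h (F b v n) = ε := by
  obtain ⟨K1, hK1⟩ := one hq1 hv hb h1
  obtain ⟨K2, hK2⟩ := one hq2 hv hb h2
  refine ⟨max K1 K2, fun h hh hne x hx ε hf => hne ?_⟩
  rw [hK1 _ (le_max_left _ _) h hh x hx ε hf, hK2 _ (le_max_right _ _) h hh x hx ε hf]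

end Pool.Agent.Lib_helper96.CUB
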