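import Pool.Agent.Lib_helper11.CUB.Pell

/-!
Solutions of the relation `F_{b,1}(s₁) F_{b,1}(s₂) = q³ g_b(s₃) g_b(s₄)` at every scale, for every `q`
which is not a square, in prescribed residue classes.
-/

namespace Pool.Agent.Lib_helper96.CUB

open Pool.Agent.Lib_helper11.CUB Pool.Agent.Lib_helper3.CYC

theorem quad_ne' {q : ℕ} (hq : ¬ IsSquare (q : ℤ)) (b : ℚ) :
    (8 + 6 * q - b) ^ 2 - q * (12 + q - b) ^ 2 ≠ 0 := by
  intro h
  by_cases h1 : (12 + q - b : ℚ) = 0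
  · rw [h1] at h
    have h2 : (8 + 6 * q - b : ℚ) = 0 := by
      have : (8 + 6 * q - b : ℚ) ^ 2 = 0 := by linear_combination h
      exact pow_eq_zero_iff (by norm_num) |>.1 this
    have h3 : (5 : ℚ) * q = 4 := by linarith
    have h4 : 5 * q = 4 := by exact_mod_cast h3
    omega
  · have h2 : IsSquare (q : ℚ) := by
      refine ⟨(8 + 6 * q - b) / (12 + q - b), ?_⟩
      field_simp
      linear_combination -h
    have h3 : IsSquare (q : ℤ) := by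
      have : IsSquare ((q : ℤ) : ℚ) := by exact_mod_cast h2
      rwa [Rat.isSquare_intCast_iff] at this
    exact hq h3

/-- The first coordinate of the points. -/
def uu (q b X Y : ℚ) : ℚ := -(12 + q - b) * X + (8 + 6 * q - b) * Y

/-- The second coordinate of the points. -/
def ww (q b X Y : ℚ) : ℚ := (8 + 6 * q - b) / q * X - (12 + q - b) * Y

/-- The solutions. -/
theorem pts {q : ℕ} (hq : ¬ IsSquare (q : ℤ)) (b : ℚ) {N : ℤ} (hN : 0 < N) :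
    ∃ K1 : ℚ, 1 ≤ K1 ∧ ∀ T : ℚ, 1 ≤ T → ∃ X Y : ℤ, Un q N X Y ∧
      (T ≤ (6 + b - q + |uu q b X Y|) / 2 ∧ (6 + b - q + |uu q b X Y|) / 2 ≤ K1 * T) ∧
      (T ≤ -((6 + b - q - |uu q b X Y|) / 2) ∧ -((6 + b - q - |uu q b X Y|) / 2) ≤ K1 * T) ∧
      (T ≤ ((8 - b) / q + |ww q b X Y|) / 2 ∧ ((8 - b) / q + |ww q b X Y|) / 2 ≤ K1 * T) ∧
      (T ≤ -(((8 - b) / q - |ww q b X Y|) / 2) ∧ -(((8 - b) / q - |ww q b X Y|) / 2) ≤ K1 * T) := by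
  have hq2 : 1 ≤ q := by
    rcases Nat.eq_zero_or_pos q with h | h
    · exact absurd ⟨0, by rw [h]; simp⟩ hq
    · exact h
  have hq1 : (1 : ℚ) ≤ q := by exact_mod_cast hq2
  have hq0 : (q : ℚ) ≠ 0 := by linarith
  have hne := quad_ne' hq b
  obtain ⟨δU, XU, hδU, hU⟩ := pell_form (a := -(12 + q - b)) (c := 8 + 6 * q - b) hq1
    (by intro h; apply hne; linear_combination -h)
  obtain ⟨δV, XV, hδV, hV⟩ := pell_form (a := (8 + 6 * q - b) / q) (c := -(12 + q - b)) hq1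
    (by
      intro h; apply hne
      have : q * ((8 + 6 * q - b) / q) ^ 2 = (8 + 6 * q - b) ^ 2 / q := by field_simp
      rw [this] at h
      field_simp at h
      linear_combination h)
  obtain ⟨Uc, hUc, hunits⟩ := units (d := q) (W := N) (by exact_mod_cast hq2) hq hN
  obtain ⟨CU, hCU⟩ : ∃ C : ℚ, C = |(-(12 + q - b) : ℚ)| + |(8 + 6 * q - b : ℚ)| := ⟨_, rfl⟩
  obtain ⟨CV, hCV⟩ : ∃ C : ℚ, C = |((8 + 6 * q - b) / q : ℚ)| + |(-(12 + q - b) : ℚ)| := ⟨_, rfl⟩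
  obtain ⟨σ1, hσ1⟩ : ∃ x : ℚ, x = 6 + b - q := ⟨_, rfl⟩
  obtain ⟨σ2, hσ2⟩ : ∃ x : ℚ, x = (8 - b) / q := ⟨_, rfl⟩
  obtain ⟨L, hL⟩ : ∃ L : ℚ, L = |σ1| + |σ2| + 2 := ⟨_, rfl⟩
  have hσ1n := abs_nonneg σ1
  have hσ2n := abs_nonneg σ2
  have hL0 : 0 < L := by linarith
  obtain ⟨κ, hκ⟩ := exists_nat_ge (max (max XU XV) (max (L / δU) (L / δV)))
  have k1 : XU ≤ κ + 1 := by
    have := (le_max_left XU XV).trans ((le_max_left _ _).trans hκ); linarith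
  have k2 : XV ≤ κ + 1 := by
    have := (le_max_right XU XV).trans ((le_max_left _ _).trans hκ); linarith
  have k3 : L / δU ≤ κ + 1 := by
    have := (le_max_left (L / δU) (L / δV)).trans ((le_max_right _ _).trans hκ); linarith
  have k4 : L / δV ≤ κ + 1 := by
    have := (le_max_right (L / δU) (L / δV)).trans ((le_max_right _ _).trans hκ); linarith
  rw [div_le_iff₀ hδU] at k3
  rw [div_le_iff₀ hδV] at k4
  have hκ0 : (0 : ℚ) ≤ κ := Nat.cast_nonneg κ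
  have hCU0 : 0 ≤ CU := by rw [hCU]; positivity
  have hCV0 : 0 ≤ CV := by rw [hCV]; positivity
  have hUcq : (1 : ℚ) ≤ (Uc : ℚ) := by exact_mod_cast hUc
  refine ⟨1 + L + (CU + CV) * (Uc * (2 * (κ + 1))), ?_, ?_⟩
  · have : 0 ≤ (CU + CV) * (Uc * (2 * (κ + 1))) := by positivity
    linarith
  intro T hT
  obtain ⟨X, Y, hXY, hX1, hX2⟩ := hunits ⌈((κ : ℚ) + 1) * T⌉ (by
    rw [Int.one_le_ceil_iff]; positivity)
  obtain ⟨e1, e2, e2', e3, e4⟩ := id hXY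
  have b1 : ((κ : ℚ) + 1) * T ≤ X := (Int.le_ceil _).trans (by exact_mod_cast hX1)
  have b2 : (X : ℚ) ≤ Uc * (2 * (κ + 1)) * T := by
    have h1 : (X : ℚ) ≤ Uc * (⌈((κ : ℚ) + 1) * T⌉ : ℤ) := by exact_mod_cast hX2
    have h2 : ((⌈((κ : ℚ) + 1) * T⌉ : ℤ) : ℚ) ≤ ((κ : ℚ) + 1) * T + 1 := (Int.ceil_lt_add_one _).le
    have h3 : (1 : ℚ) ≤ ((κ : ℚ) + 1) * T := by nlinarith
    calc (X : ℚ) ≤ Uc * (⌈((κ : ℚ) + 1) * T⌉ : ℤ) := h1
      _ ≤ Uc * (2 * (((κ : ℚ) + 1) * T)) := by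
        apply mul_le_mul_of_nonneg_left _ (by linarith)
        linarith
      _ = _ := by ring
  have hXYq : (X : ℚ) ^ 2 - q * (Y : ℚ) ^ 2 = 1 := by exact_mod_cast e1
  have hXq : (1 : ℚ) ≤ X := by exact_mod_cast e2
  have hYq : (1 : ℚ) ≤ Y := by exact_mod_cast e2'
  have hκT : (κ : ℚ) + 1 ≤ ((κ : ℚ) + 1) * T := by nlinarith
  obtain ⟨u, hu⟩ : ∃ u : ℚ, u = uu q b X Y := ⟨_, rfl⟩
  obtain ⟨w, hw⟩ : ∃ w : ℚ, w = ww q b X Y := ⟨_, rfl⟩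
  obtain ⟨lu, hu2⟩ := hU X Y hXYq hXq hYq (by linarith)
  obtain ⟨lw, hw2⟩ := hV X Y hXYq hXq hYq (by linarith)
  have hu' : -(12 + q - b) * (X : ℚ) + (8 + 6 * q - b) * Y = u := by rw [hu]; rfl
  have hw' : (8 + 6 * q - b) / q * (X : ℚ) + -(12 + q - b) * Y = w := by
    rw [hw]; unfold ww; ring
  rw [hu', ← hCU] at hu2
  rw [hu'] at lu
  rw [hw', ← hCV] at hw2
  rw [hw'] at lw
  have hE : (0 : ℚ) ≤ Uc * (2 * (κ + 1)) := by positivity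
  have su' := size_aux (σ := σ1) (u := u) hT (by linarith) hδU k3 b1 b2 lu hu2 hCU0 hCV0 hE
  have sw' := size_aux (σ := σ2) (u := w) hT (by linarith) hδV k4 b1 b2 lw hw2 hCV0 hCU0 hE
  rw [add_comm CV CU] at sw'
  have su := abs_size su'.1 su'.2
  have sw := abs_size sw'.1 sw'.2
  refine ⟨X, Y, hXY, ?_⟩
  rw [← hu, ← hw, ← hσ1, ← hσ2]
  exact ⟨su.1, su.2, sw.1, sw.2⟩

theorem pts_id {q : ℕ} (hq : ¬ IsSquare (q : ℤ)) (b : ℚ) {X Y : ℤ}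
    (h : (X : ℤ) ^ 2 - (q : ℤ) * Y ^ 2 = 1) :
    F b 1 ((6 + b - q + |uu q b X Y|) / 2) * F b 1 ((6 + b - q - |uu q b X Y|) / 2) =
      q ^ 3 * (g b (((8 - b) / q + |ww q b X Y|) / 2) * g b (((8 - b) / q - |ww q b X Y|) / 2)) := by
  have hq0 : (q : ℚ) ≠ 0 := by
    intro h0
    have : q = 0 := by exact_mod_cast h0
    exact hq ⟨0, by rw [this]; simp⟩
  have hXYq : (X : ℚ) ^ 2 - q * (Y : ℚ) ^ 2 = 1 := by exact_mod_cast h
  rw [abs_pair (F b 1), abs_pair (g b)]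
  exact id_pell b q X Y hq0 hXYq _ _ rfl rfl

end Pool.Agent.Lib_helper96.CUB
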